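import Mathlib
import Pool.Agent.Lib.MP_ce212d_co.Main

/-!
For every large order `n` there are at least `n ^ (5 / 53)` mutually orthogonal Latin squares.
-/

namespace Pool.Agent.Results.MP_ce212d_co.AllOrders

theorem result : ∃ n₀ : ℕ, ∀ n : ℕ, n₀ ≤ n → ∃ r : ℕ, n ^ 5 ≤ r ^ 53 ∧
    ∃ L : Fin r → Fin n → Fin n → Fin n,
      (∀ a i, Function.Bijective (L a i)) ∧ (∀ a j, Function.Bijective fun i => L a i j) ∧
      ∀ a b, a ≠ b → Function.Injective fun x : Fin n × Fin n => (L a x.1 x.2, L b x.1 x.2) := by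
  obtain ⟨n₀, h⟩ := Pool.Agent.Lib.MP_ce212d_co.good_pow
  refine ⟨n₀, fun n hn => ?_⟩
  obtain ⟨r, hr, hg⟩ := h n hn
  exact ⟨r, hr, hg.mols⟩

end Pool.Agent.Results.MP_ce212d_co.AllOrders
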