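import Mathlib
import Pool.Agent.Lib.MP_ce212d_co.Half

/-!
A recursive construction of mutually orthogonal Latin squares of order `m * h * (q + 1) + u` for an
odd prime power `q = 2 * h + 1`.
-/

namespace Pool.Agent.Results.MP_ce212d_co.HalfFrame

/-- There are `r` mutually orthogonal Latin squares of order `n`. -/
def HasMOLS (r n : ℕ) : Prop :=
  ∃ L : Fin r → Fin n → Fin n → Fin n,
    (∀ a i, Function.Bijective (L a i)) ∧ (∀ a j, Function.Bijective fun i => L a i j) ∧
    ∀ a b, a ≠ b → Function.Injective fun x : Fin n × Fin n => (L a x.1 x.2, L b x.1 x.2)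

theorem result (q h r m u : ℕ) (hq : IsPrimePow q) (hh : q = 2 * h + 1) (hr : r < q) (hu : u ≤ 1)
    (h1 : HasMOLS r m) (h2 : HasMOLS r (m * h + u)) : HasMOLS r (m * h * (q + 1) + u) := by
  obtain ⟨L, a1, a2, a3⟩ := h1
  obtain ⟨L', b1, b2, b3⟩ := h2
  exact (Pool.Agent.Lib.MP_ce212d_co.Half.half hq hh (by omega) hu
    (Pool.Agent.Lib.MP_ce212d_co.Half.good_of_mols L a1 a2 a3)
    (Pool.Agent.Lib.MP_ce212d_co.Half.good_of_mols L' b1 b2 b3)).mols

end Pool.Agent.Results.MP_ce212d_co.HalfFrame
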