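import Mathlib
import Pool.Agent.Lib.MP_ce212d_co.Jet

/-!
For `p = 3 ^ e` with `e` odd there are `p - 1` mutually orthogonal Latin squares of order
`s = p * (p + 1)`, which is not a prime power, and `p - 1 > sqrt s - 3 / 2`.
-/

namespace Pool.Agent.Results.MP_ce212d_co.NearSqrt

theorem result (e s r : ℕ) (he : Odd e) (hs : s = 3 ^ e * (3 ^ e + 1)) (hr : r + 1 = 3 ^ e) :
    ¬ IsPrimePow s ∧ Real.sqrt s - 3 / 2 < r ∧
    ∃ L : Fin r → Fin s → Fin s → Fin s,
      (∀ a i, Function.Bijective (L a i)) ∧ (∀ a j, Function.Bijective fun i => L a i j) ∧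
      ∀ a b, a ≠ b → Function.Injective fun x : Fin s × Fin s => (L a x.1 x.2, L b x.1 x.2) := by
  have he0 : e ≠ 0 := by rintro rfl; simp at he
  refine ⟨fun h => ?_, ?_, ?_⟩
  · obtain ⟨q, k, hq, -, hk⟩ := (isPrimePow_nat_iff s).1 h
    have h3 : 3 ∣ q ^ k := by rw [hk, hs]; exact (dvd_pow_self 3 he0).mul_right _
    have h2 : 2 ∣ q ^ k := by
      rw [hk, hs]
      exact (Nat.even_mul_succ_self _).two_dvd
    have e3 := (Nat.prime_dvd_prime_iff_eq Nat.prime_three hq).1 (Nat.prime_three.dvd_of_dvd_pow h3)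
    have e2 := (Nat.prime_dvd_prime_iff_eq Nat.prime_two hq).1 (Nat.prime_two.dvd_of_dvd_pow h2)
    omega
  · rw [sub_lt_iff_lt_add, Real.sqrt_lt' (by positivity), hs, ← hr]
    push_cast
    nlinarith
  · have h := Pool.Agent.Lib.MP_ce212d_co.good_jet he
    rw [← hs, ← hr] at h
    exact h.mols

end Pool.Agent.Results.MP_ce212d_co.NearSqrt
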